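import Mathlib
import Pool.Agent.W5h55.SH.B6
set_option autoImplicit false

/-!
# Stein's restriction conjecture for random series of spherical harmonics

Let `n ≥ 3`, let `Y_0, Y_1, …` be arbitrary spherical harmonics on `S^(n-1)` (`Y_i` is the
restriction to the sphere of a homogeneous harmonic polynomial of degree `k_i`; the degrees are
arbitrary and may repeat) and let `X_0, X_1, …` be independent real random variables with
`E X_i = 0`, `E X_i^2 = 1`, `E X_i^4 ≤ K` (random signs, Gaussians, …). Suppose that almost surely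
the random series `∑ X_i Y_i` converges in measure on the sphere to a function `g_ω`.

* If `p > 2n/(n-1)` and almost surely `g_ω ∈ L^p(S^(n-1))`, then almost surely the Fourier
  transform of `g_ω dσ` is in `L^p(ℝ^n)`.
* If almost surely `g_ω` is bounded, then almost surely the Fourier transform of `g_ω dσ` is in
  `L^p(ℝ^n)` for all `p > 2n/(n-1)`.

So in the full conjectured range Stein's conjecture is true for almost every randomisation of the
spherical harmonic expansion of a density, with only one random coefficient for each degree. No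
smoothness is assumed.
-/

namespace Pool.Agent.Results.MP_6cbfb8_an.RandomHarmonicSeries

open MeasureTheory Set Metric ProbabilityTheory Filter
open scoped ENNReal Topology RealInnerProductSpace

/-- Euclidean space -/
abbrev E (n : ℕ) := EuclideanSpace ℝ (Fin n)

/-- surface measure on the unit sphere -/
noncomputable def sigma (n : ℕ) : Measure (sphere (0 : E n) 1) := (volume : Measure (E n)).toSphere

/-- the Fourier transform of the measure `g dσ` -/
noncomputable def ft {n : ℕ} (g : sphere (0 : E n) 1 → ℂ) (ξ : E n) : ℂ :=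
  ∫ x, Complex.exp (-(2 * Real.pi * ⟪(x : E n), ξ⟫ : ℝ) * Complex.I) * g x ∂(sigma n)

/-- `Y` is a spherical harmonic of degree `k`: the restriction to the unit sphere of a homogeneous
harmonic polynomial of degree `k` with complex coefficients. -/
def SphericalHarmonic {n : ℕ} (k : ℕ) (Y : sphere (0 : E n) 1 → ℂ) : Prop :=
  ∃ Q : MvPolynomial (Fin n) ℂ, Q.IsHomogeneous k ∧
    ∑ i, MvPolynomial.pderiv i (MvPolynomial.pderiv i Q) = 0 ∧
    ∀ x : sphere (0 : E n) 1, Y x = MvPolynomial.eval (fun i => (((x : E n) i : ℝ) : ℂ)) Q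

/-- **Theorem.** Random series of spherical harmonics satisfy Stein's restriction conjecture. -/
theorem result (n : ℕ) (hn : 3 ≤ n) {Ω : Type*} [MeasurableSpace Ω] (P : Measure Ω)
    [IsProbabilityMeasure P] (X : ℕ → Ω → ℝ) (K : ℝ) (hind : iIndepFun X P)
    (hmeas : ∀ i, Measurable (X i)) (hmem : ∀ i, MemLp (X i) 4 P)
    (h1 : ∀ i, ∫ ω, X i ω ∂P = 0) (h2 : ∀ i, ∫ ω, X i ω ^ 2 ∂P = 1)
    (h4 : ∀ i, ∫ ω, X i ω ^ 4 ∂P ≤ K) (k : ℕ → ℕ) (Y : ℕ → sphere (0 : E n) 1 → ℂ)
    (hY : ∀ i, SphericalHarmonic (k i) (Y i)) (g : Ω → sphere (0 : E n) 1 → ℂ)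
    (hg : ∀ᵐ ω ∂P, TendstoInMeasure (sigma n)
      (fun N x => ∑ i ∈ Finset.range N, (X i ω : ℂ) * Y i x) atTop (g ω)) :
    (∀ p : ℝ, 2 * (n : ℝ) / (n - 1) < p →
      (∀ᵐ ω ∂P, MemLp (g ω) (ENNReal.ofReal p) (sigma n)) →
      ∀ᵐ ω ∂P, MemLp (ft (g ω)) (ENNReal.ofReal p) volume) ∧
    ((∀ᵐ ω ∂P, MemLp (g ω) ∞ (sigma n)) →
      ∀ᵐ ω ∂P, ∀ p : ℝ, 2 * (n : ℝ) / (n - 1) < p →
        MemLp (ft (g ω)) (ENNReal.ofReal p) volume) := by
  choose Q hQ1 hQ2 hQ3 using hY
  have hc : Pool.Agent.W5h55.SH.Coef P X K := ⟨hind, hmeas, hmem, h1, h2, h4⟩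
  have hY' : ∀ i, Y i = fun x : sphere (0 : E n) 1 => Pool.Agent.W5h55.SH.ev (Q i) (x : E n) :=
    fun i => funext fun x => hQ3 i x
  simp_rw [hY'] at hg
  have hfin : IsFiniteMeasure (sigma n) := Pool.Agent.W5h55.SH.sig_finite n
  have hn' : (3 : ℝ) ≤ n := by exact_mod_cast hn
  have hpc : 0 < 2 * (n : ℝ) / (n - 1) := by
    apply div_pos <;> linarith
  have key : ∀ p : ℝ, 2 * (n : ℝ) / (n - 1) < p →
      (∀ᵐ ω ∂P, MemLp (g ω) (ENNReal.ofReal p) (sigma n)) →
      ∀ᵐ ω ∂P, MemLp (ft (g ω)) (ENNReal.ofReal p) volume := fun p hp hgp =>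
    Pool.Agent.W5h55.SH.rand_all hn p hp hc k Q hQ1 hQ2 g hg hgp
  refine ⟨key, fun hb => ?_⟩
  have hall : ∀ᵐ ω ∂P, ∀ j : ℕ,
      MemLp (ft (g ω)) (ENNReal.ofReal (2 * (n : ℝ) / (n - 1) + 1 / ((j : ℝ) + 1))) volume := by
    rw [ae_all_iff]
    intro j
    refine key _ (by
      have : (0 : ℝ) < 1 / ((j : ℝ) + 1) := by positivity
      linarith) ?_
    filter_upwards [hb] with ω hω
    exact hω.mono_exponent le_top
  filter_upwards [hall, hb] with ω hω hbω
  intro p hp
  obtain ⟨j, hj⟩ := exists_nat_one_div_lt (sub_pos.2 hp)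
  have hq0 : 0 < 2 * (n : ℝ) / (n - 1) + 1 / ((j : ℝ) + 1) := by positivity
  have h5 := (hω j).2
  rw [eLpNorm_lt_top_iff_lintegral_rpow_enorm_lt_top (ENNReal.ofReal_pos.2 hq0).ne'
    ENNReal.ofReal_ne_top, ENNReal.toReal_ofReal hq0.le] at h5
  have h6 : MemLp (g ω) 1 (sigma n) := hbω.mono_exponent le_top
  exact Pool.Agent.W5h55.SH.ft_up (g ω) hbω.1 (memLp_one_iff_integrable.1 h6).2.ne hq0
    (by linarith) h5

end Pool.Agent.Results.MP_6cbfb8_an.RandomHarmonicSeries
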